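import Mathlib
import Pool.Agent.OrdRank.Final

set_option autoImplicit false

open OrdRank

universe u

namespace Pool.Agent.Results.MP_563318_al.FewConvex

/-- For a group `G` with a bi-invariant total order and special rank at most `r` the following are
equivalent: `G` is soluble; the commutator subgroup of `G` is nilpotent of class at most `2 r`; there
are at most `(2 r + 1) r + 1` convex subgroups; there are fewer than continuum many convex subgroups;
every convex subgroup is normal; no element is infinitely smaller than a conjugate of itself; the
convex subgroups satisfy the ascending chain condition; they satisfy the descending chain condition;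
all subgroups generated by two elements are soluble. -/
theorem result (G : Type u) [Group G] [LinearOrder G] [MulLeftMono G] [MulRightMono G] (r : ℕ)
    (hr : SpecialRankLE G r) : List.TFAE [
      Group.IsSolvable G,
      (commutator G).lowerCentralSeries (2 * r) = ⊥,
      {C : Subgroup G | IsConvex C}.Finite ∧
        {C : Subgroup G | IsConvex C}.ncard ≤ (2 * r + 1) * r + 1,
      Cardinal.mk {C : Subgroup G // IsConvex C} < Cardinal.continuum,
      ∀ C : Subgroup G, IsConvex C → C.Normal,
      ∀ x h : G, ¬ InfSmaller x (h⁻¹ * x * h),
      WellFoundedGT {C : Subgroup G // IsConvex C},
      WellFoundedLT {C : Subgroup G // IsConvex C},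
      ∀ x h : G, Group.IsSolvable (Subgroup.closure ({x, h} : Set G))] :=
  tfae_few hr

end Pool.Agent.Results.MP_563318_al.FewConvex
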